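import Pool.Agent.Helper84.TorusMfd

set_option autoImplicit false

open Pool.Agent.Helper84

/-- For every `n` there is a homogeneous manifold of dimension `n + 1` (connected, every point
having an open neighbourhood homeomorphic to Euclidean space) in which, for every point `z`, the
set of the points that cannot be separated from `z` is homeomorphic to a single copy of the
`n`-dimensional torus. -/
theorem Pool.Agent.Results.MP_861644_gt.SingleTorus.result (n : ℕ) :
    ∃ (M : Type) (_ : TopologicalSpace M),
      ConnectedSpace M ∧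
      (∀ z : M, ∃ U : Set M, IsOpen U ∧ z ∈ U ∧
        Nonempty (U ≃ₜ EuclideanSpace ℝ (Fin (n + 1)))) ∧
      (∀ x y : M, ∃ h : M ≃ₜ M, h x = y) ∧
      ∀ z : M, Nonempty
        ({y : M | y ≠ z ∧ ∀ U V : Set M, IsOpen U → IsOpen V → y ∈ U → z ∈ V →
          (U ∩ V).Nonempty} ≃ₜ UnitAddTorus (Fin n)) := by
  refine ⟨TorusMfd.M n, Glue.topo (TorusMfd.φ n), TorusMfd.connected n,
    TorusMfd.locally_euclidean n, ?_, TorusMfd.NH_homeo n⟩
  intro x y
  exact TorusMfd.homogeneous n x y
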