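import Pool.Agent.Helper70.NH.Manifold

set_option autoImplicit false

open Pool.Agent.Helper70

/-- For every `n ≥ 2` there is a homogeneous manifold of dimension `n + 1` (connected, every point
having an open neighbourhood homeomorphic to Euclidean space) in which, for every point `z`, the
set of the points that cannot be separated from `z` is homeomorphic to a topological sum of a
nonempty family of copies of the `n`-dimensional sphere. -/
theorem Pool.Agent.Results.MP_861644_gt.SphereFamily.result (n : ℕ) (hn : 2 ≤ n) :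
    ∃ (M : Type) (_ : TopologicalSpace M),
      ConnectedSpace M ∧
      (∀ z : M, ∃ U : Set M, IsOpen U ∧ z ∈ U ∧
        Nonempty (U ≃ₜ EuclideanSpace ℝ (Fin (n + 1)))) ∧
      (∀ x y : M, ∃ h : M ≃ₜ M, h x = y) ∧
      ∀ z : M, ∃ ι : Type, Nonempty ι ∧ Nonempty
        ({y : M | y ≠ z ∧ ∀ U V : Set M, IsOpen U → IsOpen V → y ∈ U → z ∈ V →
          (U ∩ V).Nonempty} ≃ₜ
          (Σ _ : ι, Metric.sphere (0 : EuclideanSpace ℝ (Fin (n + 1))) 1)) := by
  have hfr : Module.finrank ℝ (EuclideanSpace ℝ (Fin (n + 1))) = n + 1 := by simp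
  have hfact : Fact (2 < Module.finrank ℝ (EuclideanSpace ℝ (Fin (n + 1)))) :=
    ⟨by rw [hfr]; omega⟩
  refine ⟨NH.M (EuclideanSpace ℝ (Fin (n + 1))), Helper84.Glue.topo NH.φ, NH.connected,
    NH.locally_euclidean n hfr, ?_, ?_⟩
  · intro x y
    exact NH.homogeneous x y
  · intro z
    obtain ⟨w, ⟨s, x⟩, rfl⟩ := NH.isAtlas.surj z
    exact ⟨NH.Idx w s, NH.idx_nonempty w s, NH.NH_homeo w s x⟩
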